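import Pool.Agent.Helper51.AJ.St
import Pool.Agent.Helper51.AJ.Basic

/-!
# Project AJ, module FCK: soundness of the planarity checker
-/

set_option autoImplicit false

namespace Pool.Agent.Helper54.AJ

open Pool.Agent.Helper51.AJ

private theorem at2_iff {n : ℕ} (A : Fin n → Fin n → Bool) (a b : Fin n) :
    at2 A a b = true ↔ (ga A).Adj a b := by
  simp [at2, ga]

private theorem anyPair_true {n : ℕ} {P : Fin n → Fin n → Bool} {x y : Fin n} (hxy : x < y)
    (hP : P x y = true) : ∀ l : List (Fin n), l.Pairwise (· < ·) → x ∈ l → y ∈ l →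
      anyPair P l = true := by
  intro l
  induction l with
  | nil =>
    intro _ hx _
    exact absurd hx List.not_mem_nil
  | cons a l ih =>
    intro hs hx hy
    rw [List.pairwise_cons] at hs
    unfold anyPair
    rw [Bool.or_eq_true]
    rcases List.mem_cons.mp hx with h | h
    · left
      subst h
      rw [List.any_eq_true]
      rcases List.mem_cons.mp hy with h | h
      · exact absurd h (ne_of_gt hxy)
      · exact ⟨y, h, hP⟩
    · right
      rcases List.mem_cons.mp hy with h' | h'
      · subst h'
        exact absurd (hs.1 x h) (not_lt.mpr hxy.le)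
      · exact ih hs.2 h h'

private theorem anyPair_false {n : ℕ} {P : Fin n → Fin n → Bool} : ∀ l : List (Fin n),
    l.Pairwise (· < ·) → (∀ x ∈ l, ∀ y ∈ l, x ≠ y → P x y = false) → anyPair P l = false := by
  intro l
  induction l with
  | nil =>
    intro _ _
    rfl
  | cons a l ih =>
    intro hs h
    rw [List.pairwise_cons] at hs
    unfold anyPair
    rw [Bool.or_eq_false_iff]
    constructor
    · rw [List.any_eq_false]
      intro y hy
      rw [h a List.mem_cons_self y (List.mem_cons_of_mem _ hy) (ne_of_lt (hs.1 y hy))]
      exact Bool.false_ne_true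
    · exact ih hs.2 fun x hx y hy hxy =>
        h x (List.mem_cons_of_mem _ hx) y (List.mem_cons_of_mem _ hy) hxy

private theorem card_le {n : ℕ} {W : Type} [Fintype W] {H : SimpleGraph W}
    {G : SimpleGraph (Fin n)} {l : List (Fin n)} (h : Mod H G {x | x ∈ l}) :
    Fintype.card W ≤ l.length := by
  classical
  obtain ⟨φ, h1, h2, h3, -⟩ := h
  have h4 : ∀ w, ∃ x, x ∈ φ w := fun w => by
    obtain ⟨x⟩ := (h2 w).nonempty
    exact ⟨x.1, x.2⟩
  choose f hf using h4
  have hinj : Function.Injective f := by
    intro w w' hww
    by_contra hne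
    exact Set.disjoint_left.mp (h3 w w' hne) (hf w) (hww ▸ hf w')
  calc Fintype.card W = (Finset.univ.image f).card := by
        rw [Finset.card_image_of_injective _ hinj, Finset.card_univ]
    _ ≤ l.toFinset.card := by
        apply Finset.card_le_card
        intro x hx
        rw [Finset.mem_image] at hx
        obtain ⟨w, -, rfl⟩ := hx
        rw [List.mem_toFinset]
        exact h1 w (hf w)
    _ ≤ l.length := l.toFinset_card_le

private theorem card_eq {n : ℕ} {W : Type} [Fintype W] {l : List (Fin n)} (hl : l.Nodup)
    {f : W → Fin n} (hf : Function.Injective f) (h : ∀ a, a ∈ l ↔ ∃ w, f w = a) :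
    l.length = Fintype.card W := by
  classical
  rw [← List.toFinset_card_of_nodup hl, ← Finset.card_univ, ← Finset.card_image_of_injective _ hf]
  congr 1
  ext a
  rw [List.mem_toFinset, h, Finset.mem_image]
  simp

private theorem erase_sorted {n : ℕ} {l : List (Fin n)} (h : l.Pairwise (· < ·)) (x : Fin n) :
    (l.erase x).Pairwise (· < ·) := List.Pairwise.sublist List.erase_sublist h

private theorem has5_complete (hF : StFel) {n : ℕ} : ∀ (k : ℕ) (A : Fin n → Fin n → Bool)
    (l : List (Fin n)), l.Pairwise (· < ·) → l.length ≤ k →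
    Mod (⊤ : SimpleGraph (Fin 5)) (ga A) {x | x ∈ l} → has5 k A l = true := by
  intro k
  induction k with
  | zero =>
    intro A l _ hk hM
    have := card_le hM
    rw [Fintype.card_fin] at this
    omega
  | succ k ih =>
    intro A l hs hk hM
    have hn : l.Nodup := hs.imp fun h => ne_of_lt h
    have hc := card_le hM
    rw [Fintype.card_fin] at hc
    have hF' := hF n A l (Fin 5) ⊤ hn hM
    unfold has5
    rw [if_neg (by omega)]
    by_cases h5 : l.length = 5
    · rw [if_pos h5]
      rcases hF' with ⟨x, hx, h⟩ | ⟨x, hx, y, hy, -, -, h⟩ | ⟨f, hf, h1, h2⟩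
      · have := card_le h
        rw [Fintype.card_fin, List.length_erase_of_mem hx] at this
        omega
      · have := card_le h
        rw [Fintype.card_fin, List.length_erase_of_mem hy] at this
        omega
      · rw [anyPair_false l hs]
        · rfl
        · intro x hx y hy hxy
          obtain ⟨w, rfl⟩ := (h1 x).mp hx
          obtain ⟨w', rfl⟩ := (h1 y).mp hy
          have := h2 w w' (fun h => hxy (by rw [h]))
          rw [← at2_iff] at this
          rw [this]
          rfl
    · rw [if_neg h5, Bool.or_eq_true]
      rcases hF' with ⟨x, hx, h⟩ | ⟨x, hx, y, hy, hxy, hat, h⟩ | ⟨f, hf, h1, h2⟩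
      · left
        rw [List.any_eq_true]
        refine ⟨x, hx, ih A _ (erase_sorted hs x) ?_ h⟩
        rw [List.length_erase_of_mem hx]
        omega
      · right
        refine anyPair_true hxy ?_ l hs hx hy
        rw [Bool.and_eq_true]
        refine ⟨hat, ih _ _ (erase_sorted hs y) ?_ h⟩
        rw [List.length_erase_of_mem hy]
        omega
      · have := card_eq hn hf h1
        rw [Fintype.card_fin] at this
        omega

private theorem fin3_aux : ∀ i0 i j m : Fin 3, i ≠ i0 → j ≠ i0 → i ≠ j → m ≠ j → m ≠ i →
    m ≠ i0 → False := by decide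

private theorem fin3_aux2 : ∀ i0 : Fin 3, i0 + 1 ≠ i0 ∧ i0 + 2 ≠ i0 ∧ i0 + 1 ≠ i0 + 2 := by decide

private theorem sub33_true {n : ℕ} {A : Fin n → Fin n → Bool} {x : Fin n} {l : List (Fin n)}
    (hs : (x :: l).Pairwise (· < ·)) (g h : Fin 3 → Fin n) (hg : Function.Injective g)
    (hcov : ∀ a, a ∈ x :: l ↔ (∃ i, g i = a) ∨ ∃ i, h i = a)
    (hadj : ∀ i j, (ga A).Adj (g i) (h j)) (i0 : Fin 3) (hx : g i0 = x) :
    sub33 A (x :: l) = true := by
  have hn : (x :: l).Nodup := hs.imp fun h => ne_of_lt h
  rw [List.nodup_cons] at hn
  rw [List.pairwise_cons] at hs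
  have key : ∀ i j : Fin 3, i ≠ i0 → j ≠ i0 → g i < g j → sub33 A (x :: l) = true := by
    intro i j hi hj hij
    have hmem : ∀ i : Fin 3, i ≠ i0 → g i ∈ l := by
      intro i hi
      rcases List.mem_cons.mp ((hcov (g i)).mpr (Or.inl ⟨i, rfl⟩)) with h' | h'
      · rw [← hx] at h'
        exact absurd (hg h') hi
      · exact h'
    unfold sub33
    refine anyPair_true hij ?_ l hs.2 (hmem i hi) (hmem j hj)
    have hb : ∀ b, b ∈ (l.erase (g i)).erase (g j) → ∃ m, h m = b := by
      intro b hb
      have hn2 := hn.2.erase (g i)
      rw [hn2.mem_erase_iff, hn.2.mem_erase_iff] at hb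
      rcases (hcov b).mp (List.mem_cons_of_mem _ hb.2.2) with ⟨m, hm⟩ | h'
      · exfalso
        have hm1 : m ≠ j := fun h' => hb.1 (by rw [← hm, h'])
        have hm2 : m ≠ i := fun h' => hb.2.1 (by rw [← hm, h'])
        have hm3 : m ≠ i0 := by
          intro h'
          apply hn.1
          rw [← hx, ← h', hm]
          exact hb.2.2
        have hij' : i ≠ j := fun h' => by
          rw [h'] at hij
          exact lt_irrefl _ hij
        exact fin3_aux i0 i j m hi hj hij' hm1 hm2 hm3
      · exact h'
    rw [List.all_eq_true]
    intro a ha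
    rw [List.all_eq_true]
    intro b hb'
    obtain ⟨m, rfl⟩ := hb b hb'
    rw [at2_iff]
    simp only [List.mem_cons, List.not_mem_nil, or_false] at ha
    rcases ha with rfl | rfl | rfl
    · rw [← hx]
      exact hadj _ _
    · exact hadj _ _
    · exact hadj _ _
  obtain ⟨h1, h2, h3⟩ := fin3_aux2 i0
  rcases lt_or_gt_of_ne (hg.ne h3) with h | h
  · exact key _ _ h1 h2 h
  · exact key _ _ h2 h1 h

private theorem has33_complete (hF : StFel) {n : ℕ} : ∀ (k : ℕ) (A : Fin n → Fin n → Bool)
    (l : List (Fin n)), l.Pairwise (· < ·) → l.length ≤ k →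
    Mod (completeBipartiteGraph (Fin 3) (Fin 3)) (ga A) {x | x ∈ l} → has33 k A l = true := by
  have hcard : Fintype.card (Fin 3 ⊕ Fin 3) = 6 := by
    rw [Fintype.card_sum, Fintype.card_fin]
  intro k
  induction k with
  | zero =>
    intro A l _ hk hM
    have := card_le hM
    rw [hcard] at this
    omega
  | succ k ih =>
    intro A l hs hk hM
    have hn : l.Nodup := hs.imp fun h => ne_of_lt h
    have hc := card_le hM
    rw [hcard] at hc
    have hF' := hF n A l (Fin 3 ⊕ Fin 3) (completeBipartiteGraph (Fin 3) (Fin 3)) hn hM
    unfold has33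
    rw [if_neg (by omega)]
    by_cases h6 : l.length = 6
    · rw [if_pos h6]
      rcases hF' with ⟨x, hx, h⟩ | ⟨x, hx, y, hy, -, -, h⟩ | ⟨f, hf, h1, h2⟩
      · have := card_le h
        rw [hcard, List.length_erase_of_mem hx] at this
        omega
      · have := card_le h
        rw [hcard, List.length_erase_of_mem hy] at this
        omega
      · cases l with
        | nil => simp at h6
        | cons x l =>
          obtain ⟨w, hw⟩ := (h1 x).mp List.mem_cons_self
          cases w with
          | inl i =>
            refine sub33_true hs (fun i => f (Sum.inl i)) (fun i => f (Sum.inr i))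
              (fun a b hab => Sum.inl_injective (hf hab)) ?_ ?_ i hw
            · intro a
              rw [h1 a]
              constructor
              · rintro ⟨w | w, h⟩
                · exact Or.inl ⟨w, h⟩
                · exact Or.inr ⟨w, h⟩
              · rintro (⟨w, h⟩ | ⟨w, h⟩)
                · exact ⟨_, h⟩
                · exact ⟨_, h⟩
            · intro i j
              apply h2
              simp
          | inr i =>
            refine sub33_true hs (fun i => f (Sum.inr i)) (fun i => f (Sum.inl i))
              (fun a b hab => Sum.inr_injective (hf hab)) ?_ ?_ i hw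
            · intro a
              rw [h1 a]
              constructor
              · rintro ⟨w | w, h⟩
                · exact Or.inr ⟨w, h⟩
                · exact Or.inl ⟨w, h⟩
              · rintro (⟨w, h⟩ | ⟨w, h⟩)
                · exact ⟨_, h⟩
                · exact ⟨_, h⟩
            · intro i j
              apply h2
              simp
    · rw [if_neg h6, Bool.or_eq_true]
      rcases hF' with ⟨x, hx, h⟩ | ⟨x, hx, y, hy, hxy, hat, h⟩ | ⟨f, hf, h1, h2⟩
      · left
        rw [List.any_eq_true]
        refine ⟨x, hx, ih A _ (erase_sorted hs x) ?_ h⟩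
        rw [List.length_erase_of_mem hx]
        omega
      · right
        refine anyPair_true hxy ?_ l hs hx hy
        rw [Bool.and_eq_true]
        refine ⟨hat, ih _ _ (erase_sorted hs y) ?_ h⟩
        rw [List.length_erase_of_mem hy]
        omega
      · have := card_eq hn hf h1
        rw [hcard] at this
        omega

theorem hFCK (h1 : StFel) : StFck := by
  intro n A l hs hp
  unfold plan at hp
  rw [Bool.and_eq_true, Bool.not_eq_true', Bool.not_eq_true'] at hp
  constructor
  · intro h
    have := has5_complete h1 l.length A l hs le_rfl h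
    rw [hp.1] at this
    exact Bool.false_ne_true this
  · intro h
    have := has33_complete h1 l.length A l hs le_rfl h
    rw [hp.2] at this
    exact Bool.false_ne_true this

end Pool.Agent.Helper54.AJ
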